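import Pool.Agent.MP_1246c0_nt.H12.SpecA

/-! Doubles are norms from the next layer. -/

namespace Pool.Agent.MP_1246c0_nt.H12

namespace BND

variable {A : Type} [AddCommGroup A] [Finite A]

theorem card4 : Nat.card (nsmulAddMonoidHom (α := A) 4).ker ≤
    Nat.card {a : A // 2 • a = 0} * Nat.card {a : A // 2 • a = 0} := by
  have : Nonempty A := ⟨0⟩
  have hs : ∀ x : A, 2 • Function.invFun (fun y : A => 2 • y) (2 • x) = 2 • x := fun x =>
    Function.invFun_eq (f := fun y : A => 2 • y) ⟨x, rfl⟩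
  rw [← Nat.card_prod]
  refine Nat.card_le_card_of_injective (fun x => (⟨2 • x.1, ?_⟩,
    ⟨x.1 - Function.invFun (fun y : A => 2 • y) (2 • x.1), ?_⟩)) ?_
  · rw [smul_smul]
    exact x.2
  · rw [smul_sub, hs, sub_self]
  · intro x y h
    simp only [Prod.mk.injEq, Subtype.mk.injEq] at h
    obtain ⟨h1, h2⟩ := h
    rw [h1] at h2
    exact Subtype.ext (sub_left_injective h2)

theorem four (ρ : ℕ) (γ : A →+ A) (K m : ℕ) (hK : ∀ a, γ^[2 ^ K] a = a)
    (hρ : Nat.card {a : A // 2 • a = 0} ≤ 2 ^ ρ) (hm : 2 * ρ ≤ m) (a : A) :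
    ∃ b, γ^[2 ^ m] a = a + 4 • b := by
  classical
  set R : AddSubgroup A := (nsmulAddMonoidHom (α := A) 4).range with hR
  have hle : R ≤ R.comap γ := by
    rintro _ ⟨x, rfl⟩
    exact ⟨γ x, by simp⟩
  set g : A ⧸ R → A ⧸ R := fun x => QuotientAddGroup.map R R γ hle x with hg
  have hsc : ∀ (n : ℕ) (x : A), g^[n] (x : A ⧸ R) = (γ^[n] x : A) := fun n x =>
    ((show Function.Semiconj (fun x : A => (x : A ⧸ R)) γ g from fun _ => rfl).iterate_right n
      x).symm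
  have hp : Function.IsPeriodicPt g (2 ^ K) (a : A ⧸ R) := by
    show g^[2 ^ K] _ = _
    rw [hsc, hK]
  obtain ⟨j, -, hj⟩ := (Nat.dvd_prime_pow Nat.prime_two).1 hp.minimalPeriod_dvd
  have hc : Nat.card (A ⧸ R) ≤ 2 ^ (2 * ρ) := by
    have : Nat.card (A ⧸ R) = Nat.card (nsmulAddMonoidHom (α := A) 4).ker :=
      AddSubgroup.index_range
    rw [this, two_mul, pow_add]
    exact card4.trans (Nat.mul_le_mul hρ hρ)
  have := Fintype.ofFinite (A ⧸ R)
  have h1 : 2 ^ j ≤ 2 ^ (2 * ρ) := by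
    rw [← hj]
    refine Function.minimalPeriod_le_card.trans ?_
    rwa [← Nat.card_eq_fintype_card]
  have h2 : j ≤ m := ((Nat.pow_le_pow_iff_right one_lt_two).1 h1).trans hm
  have h3 : g^[2 ^ m] (a : A ⧸ R) = a :=
    Function.isPeriodicPt_iff_minimalPeriod_dvd.2 (hj ▸ pow_dvd_pow 2 h2)
  rw [hsc, QuotientAddGroup.eq_iff_sub_mem] at h3
  obtain ⟨b, hb⟩ := h3
  exact ⟨b, by rw [← sub_eq_iff_eq_add', ← hb]; rfl⟩

end BND

theorem rowBND : SBND := by
  intro ρ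
  refine ⟨2 * ρ, fun A _ _ γ K m h2 hK hρ hm a => ?_⟩
  have key := BND.four ρ γ K m hK hρ hm
  choose k hk using h2
  obtain ⟨E, hE⟩ := (Set.finite_range k).bddAbove
  have hz : ∀ x : A, 2 ^ (E + 1) • x = 0 := fun x => by
    obtain ⟨c, hc⟩ := Nat.exists_eq_add_of_le' ((hE ⟨x, rfl⟩).trans (Nat.le_succ E))
    rw [show E + 1 = c + k x from hc, pow_add, mul_smul, hk, smul_zero]
  have hadd : ∀ x y : A, γ^[2 ^ m] (x + y) = γ^[2 ^ m] x + γ^[2 ^ m] y := iterate_map_add γ _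
  have hsm : ∀ (n : ℕ) (x : A), γ^[2 ^ m] (n • x) = n • γ^[2 ^ m] x := fun n x =>
    iterate_map_nsmul γ _ x n
  have ind : ∀ n : ℕ, ∃ a' b : A, 2 • a = a' + γ^[2 ^ m] a' + 2 ^ (n + 1) • b := by
    intro n
    induction n with
    | zero => exact ⟨0, a, by simp⟩
    | succ n ih =>
      obtain ⟨a', b, h⟩ := ih
      obtain ⟨c, hc⟩ := key b
      refine ⟨a' + 2 ^ n • b, -c, ?_⟩
      rw [h, hadd, hsm, hc]
      module
  obtain ⟨a', b, h⟩ := ind E
  exact ⟨a', by rw [h, hz, add_zero]⟩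

end Pool.Agent.MP_1246c0_nt.H12
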